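import Pool.Agent.H436R2.NM.Defs
import Pool.Agent.H436R2.NM.TG1
import Pool.Agent.H436R2.NM.TG2
import Pool.Agent.H436R2.NM.TG3
import Pool.Agent.H436R2.NM.TG4
import Pool.Agent.H436R2.NM.TG5
import Pool.Agent.H436R2.NM.TU1
import Pool.Agent.H436R2.NM.TU2
import Pool.Agent.H436R2.NM.TD1
import Pool.Agent.H436R2.NM.TD2
import Pool.Agent.H436R2.NM.TE1
import Pool.Agent.H436R2.NM.TE2
import Pool.Agent.H436R2.NM.TE3
import Pool.Agent.H436R2.NM.TE4
import Pool.Agent.H436R2.NM.TF0
import Pool.Agent.H436R2.NM.TF1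
import Pool.Agent.H436R2.NM.TF2
import Pool.Agent.H436R2.NM.TF3
import Pool.Agent.H436R2.NM.TF4
import Pool.Agent.H436R2.NM.TA1
import Pool.Agent.H436R2.NM.TT1
import Pool.Agent.H436R2.NM.TT2
import Pool.Agent.H436R2.NM.TT3
import Pool.Agent.H436R2.NM.TT4
import Pool.Agent.H436R2.NM.TT5
import Pool.Agent.H436R2.NM.TBLA
import Pool.Agent.H436R2.NM.TBLO
import Pool.Agent.H436R2.NM.TX1
import Pool.Agent.H436R2.NM.TX2
import Pool.Agent.H436R2.NM.TX3
import Pool.Agent.H436R2.NM.TP1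
import Pool.Agent.H436R2.NM.TP2
import Pool.Agent.H436R2.NM.TP3
import Pool.Agent.H436R2.NM.TP4
import Pool.Agent.H436R2.NM.TB1
import Pool.Agent.H436R2.NM.TB2
import Pool.Agent.H436R2.NM.TB3
import Pool.Agent.H436R2.NM.TV1
import Pool.Agent.H436R2.NM.TV2
import Pool.Agent.H436R2.NM.TC1
import Pool.Agent.H436R2.NM.TC2
import Pool.Agent.H436R2.NM.TC3
import Pool.Agent.H436R2.NM.TC4
import Pool.Agent.H436R2.NM.TC5
import Pool.Agent.H436R2.NM.TFin1

/-!
# nM `p`-groups of maximal class: the derived length is bounded logarithmically in `|S(G)|`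

Full answer (yes) to the question: there are constants `a, b` such that every finite `p`-group `G` of
maximal class (all primes `p`) which is an nM-group satisfies `dl(G) <= a log |S(G)| + b`,
where `S(G) = {γ_i(G)' : 1 <= i <= n}`.
-/

namespace Pool.Agent.Results.MP_565547_al.DerivedLengthLog

open scoped commutatorElement

universe u

/-- The `j`-th term `γ_j(G)` of the lower central series, numbered so that `γ_1(G) = G` and
`γ_{j+1}(G) = [γ_j(G), G]` (Mathlib numbers them from `0`). -/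
def gam (G : Type u) [Group G] (j : ℕ) : Subgroup G := (⊤ : Subgroup G).lowerCentralSeries (j - 1)

open Classical in
/-- The value at `g` of the induced class function `λ^G`, for a linear character `λ` of a
subgroup `N` of a finite group: `|N|⁻¹ ∑_x λ°(x g x⁻¹)`, with `λ° = λ` on `N` and `0` outside. -/
noncomputable def inducedChar {G : Type u} [Group G] [Fintype G] (N : Subgroup G) (lam : N →* ℂˣ)
    (g : G) : ℂ :=
  (Nat.card N : ℂ)⁻¹ *
    ∑ x : G, if h : x * g * x⁻¹ ∈ N then ((lam ⟨x * g * x⁻¹, h⟩ : ℂˣ) : ℂ) else 0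

/-- nM-groups: the character of every irreducible complex representation `ρ` of `G` (on some `ℂ^d`)
equals `λ^G` for a linear character `λ` of a normal subgroup `N` of `G`. -/
def IsNM (G : Type u) [Group G] [Fintype G] : Prop :=
  ∀ (d : ℕ) (ρ : Representation ℂ G (Fin d → ℂ)), ρ.IsIrreducible →
    ∃ (N : Subgroup G) (_ : N.Normal) (lam : N →* ℂˣ), ∀ g : G, ρ.character g = inducedChar N lam g

/-- `S(G) = {γ_i(G)' : 1 ≤ i ≤ n}`. -/
def derivedSubgroups (G : Type u) [Group G] (n : ℕ) : Set (Subgroup G) :=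
  {H | ∃ i, 1 ≤ i ∧ i ≤ n ∧ H = ⁅gam G i, gam G i⁆}

/-- The derived length of `G`: the least `d` with `G^(d) = 1`. -/
noncomputable def derivedLength (G : Type u) [Group G] : ℕ := sInf {d | derivedSeries G d = ⊥}

/-- For all primes `p`, all `n ≥ 2` and all nM-groups `G` of order `p^n` and nilpotency class
`n - 1`, the derived length of `G` is at most `a log |S(G)| + b`, with `a, b` not depending on `G`. -/
theorem result : ∃ a b : ℝ, ∀ (G : Type u) [Group G] [Fintype G] (p n : ℕ), p.Prime → 2 ≤ n →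
    Nat.card G = p ^ n → Group.nilpotencyClass G = n - 1 → IsNM G →
    (derivedLength G : ℝ) ≤ a * Real.log ((derivedSubgroups G n).ncard : ℝ) + b := by
  have h : H436NM.Main.{u} :=
    H436NM.tFin1 H436NM.tX3 H436NM.tX2 H436NM.tX1 H436NM.tV2 H436NM.tV1 H436NM.tC5
      H436NM.tB1 H436NM.tB2 H436NM.tB3
      ⟨H436NM.tG1, H436NM.tG2, H436NM.tG3, H436NM.tG4, H436NM.tG5, H436NM.tU1, H436NM.tU2,
        H436NM.tD1, H436NM.tD2⟩
      ⟨H436NM.tE1, H436NM.tE2, H436NM.tE3, H436NM.tE4, H436NM.tF0, H436NM.tF1, H436NM.tF2,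
        H436NM.tF3, H436NM.tF4⟩
      ⟨H436NM.tA1, H436NM.tT1, H436NM.tT2, H436NM.tT3, H436NM.tT4, H436NM.tT5, H436NM.tBLA,
        H436NM.tBLO⟩
      ⟨H436NM.tP1, H436NM.tP2, H436NM.tP3, H436NM.tP4⟩
      ⟨H436NM.tC1, H436NM.tC2, H436NM.tC3, H436NM.tC4⟩
  exact h

end Pool.Agent.Results.MP_565547_al.DerivedLengthLog
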